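import Mathlib
import Pool.Agent.H60.Four

namespace Pool.Agent.Results.MP_c5dce0_nt.Val

open Pool.Agent.H60.PAry

/-- `ν_2(S_{4,2^s}(n)) = s + 1 + (ν_2(2n) mod 2)` for `s ≥ 2`, `n ≥ 1` (and the value is nonzero). -/
theorem result : ∀ s n : ℕ, 2 ≤ s → 1 ≤ n → S 4 (2 ^ s) (2 ^ s * (4 - 1)) n ≠ 0 ∧
    padicValNat 2 (S 4 (2 ^ s) (2 ^ s * (4 - 1)) n) = s + 1 + padicValNat 2 (2 * n) % 2 := by
  intro s n hs hn
  obtain ⟨s, rfl⟩ := Nat.exists_eq_add_of_le' hs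
  have h := val_S4 s 0 n hn
  rw [mul_zero, zero_add, one_mul, mul_comm 3] at h
  refine ⟨fun h0 => ?_, h⟩
  rw [show 4 - 1 = 3 from rfl] at h0
  rw [h0, padicValNat.zero] at h
  omega

end Pool.Agent.Results.MP_c5dce0_nt.Val
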